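import Pool.Agent.L0h86.JR.Stm

/-!
# Project JR: the class in which only the symbols of seven are not trivial
-/

set_option autoImplicit false
set_option linter.unusedVariables false

open scoped Classical

namespace Pool.Agent.L0h60.JR

open Finset
open Pool.Agent.Y703.CQ (nr)
open Pool.Agent.N973.ND (Pr uu)
open Pool.Agent.L0h74.EV (n2)
open Pool.Agent.L0h86.JR

lemma sq7 (x : ZMod 7) (h : x = 3) : ¬ IsSquare x := by
  subst h
  decide

theorem t_CL7 : S_CL7 := by
  intro u h56 hu0
  set sm : ℕ → ℕ := fun p => if p = 2 then 8 else p with hsm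
  set am : ℕ → ℕ := fun p => if p = 7 then 3 else 1 with ham
  have hpr : ∀ p ∈ u.primeFactors, p.Prime := fun p hp => Nat.prime_of_mem_primeFactors hp
  obtain ⟨k, hk⟩ := Nat.chineseRemainderOfFinset am sm u.primeFactors (by
    intro p hp
    simp only [hsm]
    split_ifs
    · norm_num
    · exact (hpr p hp).ne_zero) (by
    intro p hp q hq hpq
    have h1 := hpr p (mem_coe.1 hp)
    have h2 := hpr q (mem_coe.1 hq)
    have h3 : ∀ a : ℕ, a.Prime → a ≠ 2 → Nat.Coprime 8 a := by
      intro a ha ha2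
      have h4 : Nat.Coprime (2 ^ 3) a :=
        Nat.Coprime.pow_left 3 ((Nat.coprime_primes Nat.prime_two ha).2 fun h => ha2 h.symm)
      exact h4
    show Nat.Coprime (sm p) (sm q)
    simp only [hsm]
    split_ifs with h4 h5 h5
    · exact absurd (h4.trans h5.symm) hpq
    · exact h3 q h2 h5
    · exact (h3 p h1 h4).symm
    · exact (Nat.coprime_primes h1 h2).2 hpq)
  have hd8 : 8 ∣ 7 * u := Dvd.dvd.mul_left ((by norm_num : 8 ∣ 56).trans h56) 7
  have hdm : ∀ p ∈ u.primeFactors, sm p ∣ 7 * u := by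
    intro p hp
    simp only [hsm]
    split_ifs
    · exact hd8
    · exact Dvd.dvd.mul_left (Nat.dvd_of_mem_primeFactors hp) 7
  have hmem2 : 2 ∈ u.primeFactors := Nat.mem_primeFactors.2
    ⟨Nat.prime_two, (by norm_num : 2 ∣ 56).trans h56, hu0.ne'⟩
  have hmem7 : 7 ∈ u.primeFactors := Nat.mem_primeFactors.2
    ⟨by norm_num, (by norm_num : 7 ∣ 56).trans h56, hu0.ne'⟩
  -- the residues
  have key : ∀ q : ℕ, q % (7 * u) = k % (7 * u) → ∀ p ∈ u.primeFactors, q % sm p = am p % sm p := by
    intro q hq p hp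
    have h1 := hk p hp
    have h2 : q ≡ k [MOD (7 * u)] := hq
    exact (h2.of_dvd (hdm p hp)).trans h1
  have k8 : ∀ q : ℕ, q % (7 * u) = k % (7 * u) → q % 8 = 1 := by
    intro q hq
    have h1 := key q hq 2 hmem2
    simp only [hsm, ham, if_true] at h1
    rw [if_neg (by norm_num)] at h1
    rw [h1]
  have kp : ∀ q : ℕ, q % (7 * u) = k % (7 * u) → ∀ p ∈ u.primeFactors, p ≠ 2 →
      q % p = (if p = 7 then 3 else 1) % p := by
    intro q hq p hp hp2
    have h1 := key q hq p hp
    simp only [hsm, ham, if_neg hp2] at h1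
    exact h1
  have k7 : ∀ q : ℕ, q % (7 * u) = k % (7 * u) → q % 7 = 3 := by
    intro q hq
    have h1 := kp q hq 7 hmem7 (by norm_num)
    rw [if_pos rfl] at h1
    exact h1
  have h7u : 0 < 7 * u := by omega
  refine ⟨k % (7 * u), Nat.mod_lt _ h7u, ?_, ?_⟩
  · rw [Nat.coprime_iff_gcd_eq_one]
    by_contra hne
    obtain ⟨p, hp, hd⟩ := Nat.exists_prime_and_dvd hne
    have h1 := hd.trans (Nat.gcd_dvd_left _ _)
    have h2 := hd.trans (Nat.gcd_dvd_right _ _)
    have h3 : p ∣ u := by
      rcases (Nat.Prime.dvd_mul hp).1 h2 with h | h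
      · rw [(Nat.prime_dvd_prime_iff_eq hp (by norm_num)).1 h]
        exact (by norm_num : 7 ∣ 56).trans h56
      · exact h
    have hmem : p ∈ u.primeFactors := Nat.mem_primeFactors.2 ⟨hp, h3, hu0.ne'⟩
    have hself : (k % (7 * u)) % (7 * u) = k % (7 * u) := Nat.mod_mod _ _
    by_cases hp2 : p = 2
    · have h4 := k8 _ hself
      rw [hp2] at h1
      have h5 : (k % (7 * u)) % 2 = 0 := Nat.mod_eq_zero_of_dvd h1
      omega
    · by_cases hp7 : p = 7
      · have h4 := k7 _ hself
        rw [hp7] at h1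
        have h5 : (k % (7 * u)) % 7 = 0 := Nat.mod_eq_zero_of_dvd h1
        omega
      · have h4 := kp _ hself p hmem hp2
        rw [Nat.mod_eq_zero_of_dvd h1, if_neg hp7, Nat.mod_eq_of_lt hp.one_lt] at h4
        omega
  · intro q hq hqc
    have e8 := k8 q hqc
    have e7 := k7 q hqc
    have hc7 : ((q : ℕ) : ZMod 7) = 3 := by
      have : ((q : ℕ) : ZMod 7) = ((3 : ℕ) : ZMod 7) := by
        rw [ZMod.natCast_eq_natCast_iff]
        exact e7
      rw [this]
      rfl
    have hns : ¬ IsSquare ((q : ℕ) : ZMod 7) := sq7 _ hc7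
    refine ⟨?_, ?_, ?_, ?_, ?_⟩
    · unfold uu
      rw [if_neg (by omega)]
    · unfold nr
      rw [if_neg]
      have : Fact q.Prime := ⟨hq.1⟩
      have : Fact (Nat.Prime 7) := ⟨by norm_num⟩
      rw [ZMod.exists_sq_eq_prime_iff_of_mod_four_eq_one (p := q) (q := 7) (by omega)
        (by norm_num)]
      exact hns
    · unfold nr
      rw [if_neg hns]
    · intro r' hr' hru
      have hmem : r' ∈ u.primeFactors := Nat.mem_primeFactors.2 ⟨hr'.1, hru, hu0.ne'⟩
      have h1 := kp q hqc r' hmem hr'.2.1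
      rw [if_neg hr'.2.2] at h1
      have h2 : ((q : ℕ) : ZMod r') = (1 : ℕ) := by
        rw [ZMod.natCast_eq_natCast_iff]
        exact h1
      unfold nr
      rw [h2, if_pos]
      exact ⟨1, by simp⟩
    · unfold n2
      rw [if_neg (by omega)]

end Pool.Agent.L0h60.JR
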