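import Pool.Agent.L0h86.JR.Stm

/-!
# Project JR: nondegenerate labels
-/

set_option autoImplicit false
set_option linter.unusedVariables false

open scoped Classical

namespace Pool.Agent.L0h60.JR

open Finset
open Pool.Agent.Y703.CQ (nr)
open Pool.Agent.N973.ND (Pr ty uu m7)
open Pool.Agent.N916.GB (Po Nd)
open Pool.Agent.L0h74.EV (n2 NdE)
open Pool.Agent.L0h86.JR

lemma ty2 {p : ℕ} (h : ty p = 2) : p % 4 ≠ 3 ∧ (p % 7 = 1 ∨ p % 7 = 2 ∨ p % 7 = 4) := by
  unfold ty m7 at h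
  by_cases h1 : p % 7 = 1 ∨ p % 7 = 2 ∨ p % 7 = 4 <;> by_cases h2 : p % 4 = 3
  · rw [if_pos h1, if_pos h2] at h
    omega
  · exact ⟨h2, h1⟩
  · rw [if_neg h1, if_pos h2] at h
    omega
  · rw [if_neg h1, if_neg h2] at h
    omega

lemma n2_eq {p : ℕ} (hp : Pr p) : n2 p = nr p 2 := by
  have : Fact p.Prime := ⟨hp.1⟩
  have h1 := ZMod.exists_sq_eq_two_iff (p := p) hp.2.1
  have hodd : p % 2 = 1 := Nat.odd_iff.1 (hp.1.odd_of_ne_two hp.2.1)
  have e : (((2 : ℕ) : ZMod p)) = 2 := by norm_num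
  unfold n2 nr
  rw [e]
  by_cases h : IsSquare (2 : ZMod p)
  · rw [if_pos h]
    have := h1.1 h
    rw [if_neg (by omega)]
  · rw [if_neg h]
    have h2 : ¬ (p % 8 = 1 ∨ p % 8 = 7) := fun h' => h (h1.2 h')
    rw [if_pos (by omega)]

lemma sq71 (p : ℕ) (h7 : p % 7 = 1 ∨ p % 7 = 2 ∨ p % 7 = 4) : IsSquare ((p : ℕ) : ZMod 7) := by
  have h8 : ((p : ℕ) : ZMod 7) = ((p % 7 : ℕ) : ZMod 7) := by
    rw [ZMod.natCast_eq_natCast_iff]
    exact (Nat.mod_mod _ _).symm
  rw [h8]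
  rcases h7 with h | h | h <;> rw [h]
  · exact ⟨1, by decide⟩
  · exact ⟨3, by decide⟩
  · exact ⟨2, by decide⟩

lemma nr7 {p : ℕ} (hp : Pr p) (h4 : p % 4 = 1) (h7 : p % 7 = 1 ∨ p % 7 = 2 ∨ p % 7 = 4) :
    nr p 7 = 0 := by
  have : Fact p.Prime := ⟨hp.1⟩
  have : Fact (Nat.Prime 7) := ⟨by norm_num⟩
  unfold nr
  rw [if_pos]
  rw [ZMod.exists_sq_eq_prime_iff_of_mod_four_eq_one (p := p) (q := 7) h4 (by norm_num)]
  exact sq71 p h7

theorem t_NDR : S_NDR := by
  intro t s u h56 hu0 hW S₀ S₁ hS₀ hS₁ hN h3 h7 l w c hwc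
  have h2n : (2 : ℕ) ∉ S₀ ∪ (s l).W := by
    rw [mem_union]
    rintro (h | h)
    · exact (hS₀ 2 h).2.1 rfl
    · exact (hW l 2 h).1.2 rfl
  by_cases ha : ∃ v ∈ insert 2 (S₀ ∪ (s l).W), v ≠ 7 ∧ w v ≠ 0
  · -- the first case
    set A : Finset ℕ := (S₀ ∪ (s l).W).filter fun v => v ≠ 7 with hA
    have hAsub : A ⊆ S₀ ∪ u.primeFactors.filter Pr := by
      intro v hv
      rw [hA, mem_filter, mem_union] at hv
      rw [mem_union]
      obtain ⟨hv | hv, h77⟩ := hv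
      · exact Or.inl hv
      · right
        obtain ⟨h1, h2⟩ := hW l v hv
        rw [mem_filter]
        exact ⟨Nat.mem_primeFactors.2 ⟨h1.1, h2, hu0.ne'⟩, h1.1, h1.2, h77⟩
    obtain ⟨p, hp, hty, hne⟩ := hN (fun v => if v ∈ A then w v else 0) (w 2) (by
      obtain ⟨v, hv, hv7, hwv⟩ := ha
      rcases mem_insert.1 hv with rfl | hv
      · exact Or.inr hwv
      · left
        have hvA : v ∈ A := by rw [hA, mem_filter]; exact ⟨hv, hv7⟩
        refine ⟨v, hAsub hvA, ?_⟩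
        simp only [if_pos hvA]
        exact hwv)
    obtain ⟨h4, h71⟩ := ty2 hty
    have hodd : p % 2 = 1 := Nat.odd_iff.1 ((hS₁ p hp).1.odd_of_ne_two (hS₁ p hp).2.1)
    refine ⟨p, hp, ?_⟩
    have e1 : ∑ v ∈ S₀ ∪ u.primeFactors.filter Pr, (if v ∈ A then w v else 0) * nr p v =
        ∑ v ∈ A, w v * nr p v := by
      rw [← sum_subset hAsub (fun v _ hv => by rw [if_neg hv, zero_mul])]
      exact sum_congr rfl fun v hv => by rw [if_pos hv]
    have e2 : ∑ v ∈ S₀ ∪ (s l).W, w v * nr p v = ∑ v ∈ A, w v * nr p v := by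
      symm
      refine sum_subset (filter_subset _ _) fun v hv hvA => ?_
      have : v = 7 := by
        by_contra h
        exact hvA (by rw [hA, mem_filter]; exact ⟨hv, h⟩)
      rw [this, nr7 (hS₁ p hp) (by omega) h71, mul_zero]
    have e3 : uu p = 0 := by
      unfold uu
      rw [if_neg h4]
    rw [sum_insert h2n, e2, e3, mul_zero, add_zero, ← n2_eq (hS₁ p hp)]
    rw [e1] at hne
    rwa [add_comm]
  · push Not at ha
    by_cases h7' : 7 ∈ S₀ ∪ (s l).W ∧ w 7 ≠ 0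
    · obtain ⟨p, hp, hu, hn⟩ := h7
      refine ⟨p, hp, ?_⟩
      have e1 : ∑ v ∈ insert 2 (S₀ ∪ (s l).W), w v * nr p v = w 7 * nr p 7 := by
        refine sum_eq_single_of_mem 7 (mem_insert_of_mem h7'.1) fun v hv hv7 => ?_
        rw [ha v hv hv7, zero_mul]
      rw [e1, hu, hn, mul_one, mul_zero, add_zero]
      exact h7'.2
    · have hz : ∀ v ∈ insert 2 (S₀ ∪ (s l).W), w v = 0 := by
        intro v hv
        by_cases hv7 : v = 7
        · by_contra hne
          rcases mem_insert.1 hv with h | h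
          · omega
          · exact h7' ⟨hv7 ▸ h, hv7 ▸ hne⟩
        · exact ha v hv hv7
      have hc : c ≠ 0 := by
        rcases hwc with ⟨v, hv, hne⟩ | h
        · exact absurd (hz v hv) hne
        · exact h
      obtain ⟨p, hp, h43⟩ := h3
      refine ⟨p, hp, ?_⟩
      rw [sum_eq_zero (fun v hv => by rw [hz v hv, zero_mul]), zero_add]
      have e3 : uu p = 1 := by
        unfold uu
        rw [if_pos h43]
      rw [e3, mul_one]
      exact hc

end Pool.Agent.L0h60.JR
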