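import Pool.Agent.L0h86.JR.Stm
import Pool.Agent.N848.Q.J

/-!
# Project JR: the translation
-/

set_option autoImplicit false
set_option linter.unusedVariables false

open scoped Classical

namespace Pool.Agent.L0h60.JR

open Finset
open Pool.Agent.N916.GB (Po Gd)
open Pool.Agent.L0h74.AP (Cp)
open Pool.Agent.L0h86.JR

lemma oR_pos {g : ℕ} (hg : Squarefree g) : 0 < oR g := by
  have h0 := Nat.pos_of_ne_zero hg.ne_zero
  unfold oR
  split_ifs with h
  · exact h0
  · omega

lemma oR_mul {g m : ℕ} (hm : m % 2 = 1) : oR (g * m) = oR g * m := by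
  unfold oR
  by_cases h : g % 2 = 1
  · rw [if_pos h, if_pos (by rw [Nat.mul_mod, h, hm])]
  · have h0 : g % 2 = 0 := by omega
    rw [if_neg h, if_neg (by rw [Nat.mul_mod, h0]; simp)]
    obtain ⟨k, rfl⟩ := Nat.dvd_of_mod_eq_zero h0
    rw [mul_assoc, Nat.mul_div_cancel_left _ (by norm_num), Nat.mul_div_cancel_left _ (by norm_num)]

theorem trr1 (u a g m : ℕ) (hcp : Cp u a) (h56 : 56 ∣ u) (hg : Squarefree g)
    (hgu : ∀ p, p.Prime → p ∣ g → p ∣ u) (hm : Squarefree m) (hmu : m % u = a) :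
    GdR (sysR g a) m.primeFactors ↔ NQ (g * m) := by
  have hm2 : m % 2 = 1 := hcp.modd hmu
  have h4u : 4 ∣ u := (by norm_num : 4 ∣ 56).trans h56
  have hma : m % 4 = a % 4 := by
    rw [← hmu, Nat.mod_mod_of_dvd _ h4u]
  have hpm : (oR g * m) % 4 = (oR g * a) % 4 := by
    rw [Nat.mul_mod, hma, ← Nat.mul_mod]
  have hpf : (oR (g * m)).primeFactors = m.primeFactors ∪ (oR g).primeFactors := by
    rw [oR_mul hm2, Nat.primeFactors_mul (oR_pos hg).ne' hm.ne_zero, union_comm]
  have hpar : (g * m) % 2 = g % 2 := by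
    rw [Nat.mul_mod, hm2]
    simp
  unfold GdR NQ sysR
  simp only
  rw [hpf, oR_mul hm2, hpm, hpar]
  have ht : decide (g % 2 = 0 ∨ (oR g * a) % 4 = 1) = decide (g % 2 = 0 ∨ (g * m) % 4 = 1) := by
    by_cases hg0 : g % 2 = 0
    · simp [hg0]
    · have : oR g = g := by
        unfold oR
        rw [if_pos (by omega)]
      rw [← hpm, this]
  rw [ht]

theorem trr2 (D : ℕ) (hD : Squarefree D) (h8 : D % 8 ≠ 7) : NQ D ↔ Cr (-(D : ℤ)) := by
  have h10 : (0 : ZMod 2) ≠ 1 := by decide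
  have h01 : (1 : ZMod 2) ≠ 0 := by decide
  show _ ↔ Pool.Agent.N848.Q.Crit (-(D : ℤ))
  unfold NQ
  by_cases h2 : D % 2 = 0
  · obtain ⟨n, rfl⟩ := Nat.dvd_of_mod_eq_zero h2
    have hn : Squarefree n := hD.squarefree_of_dvd (Dvd.intro_left _ rfl)
    have hn2 : n % 2 = 1 := by
      by_contra h
      have h4 : 2 * 2 ∣ 2 * n := Nat.mul_dvd_mul_left 2 (Nat.dvd_of_mod_eq_zero (by omega))
      have := hD 2 h4
      rw [Nat.isUnit_iff] at this
      omega
    have ho : oR (2 * n) = n := by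
      unfold oR
      rw [if_neg (by omega), Nat.mul_div_cancel_left _ (by norm_num)]
    rw [ho, if_pos h2]
    have h4 : n % 4 = if (if n % 4 = 3 then (0 : ZMod 2) else 1) = 0 then 3 else 1 := by
      by_cases h3 : n % 4 = 3
      · rw [if_pos h3, if_pos rfl, h3]
      · rw [if_neg h3, if_neg h01]
        omega
    have h1 := Pool.Agent.N848.Q.crit_iff (t := true) (r := 1)
      (s := if n % 4 = 3 then (0 : ZMod 2) else 1) hn h4 (fun h => by simp at h)
      (fun h => by simp at h)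
    rw [if_pos rfl] at h1
    have ht : decide ((2 * n) % 2 = 0 ∨ (2 * n) % 4 = 1) = true := by
      rw [decide_eq_true_iff]
      exact Or.inl h2
    rw [ht]
    exact h1
  · have ho : oR D = D := by
      unfold oR
      rw [if_pos (by omega)]
    rw [ho, if_neg h2]
    have h4 : D % 4 = if (if D % 4 = 3 then (0 : ZMod 2) else 1) = 0 then 3 else 1 := by
      by_cases h3 : D % 4 = 3
      · rw [if_pos h3, if_pos rfl, h3]
      · rw [if_neg h3, if_neg h01]
        omega
    have h1 := Pool.Agent.N848.Q.crit_iff (t := decide (D % 2 = 0 ∨ D % 4 = 1)) (r := 0)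
      (s := if D % 4 = 3 then (0 : ZMod 2) else 1) hD h4 (fun h => by
        rw [decide_eq_false_iff_not] at h
        exact ⟨rfl, if_pos (by omega)⟩) (fun h => by
        rw [decide_eq_false_iff_not] at h
        omega)
    rw [if_neg h10] at h1
    exact h1

theorem t_TRR : S_TRR := ⟨fun u a g m h1 h2 h3 h4 h5 h6 => trr1 u a g m h1 h2 h3 h4 h5 h6,
  fun D h1 h2 => trr2 D h1 h2⟩

end Pool.Agent.L0h60.JR
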